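import Mathlib
import Pool.Agent.H27.Filt

set_option autoImplicit false

namespace Pool.Agent.Results.MP_d359f0_an.PoorNoMeasure

/-- A free filter: proper and containing every cofinite set. -/
def Free (F : Filter ℕ) : Prop := ∅ ∉ F ∧ ∀ A : Set ℕ, Aᶜ.Finite → A ∈ F

/-- `F` is poor: every family of sets from the grill (sets whose complement is not in `F`) whose
pairwise intersections lie in the ideal (complement in `F`) is countable. -/
def Poor (F : Filter ℕ) : Prop :=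
  ∀ 𝒜 : Set (Set ℕ), (∀ A ∈ 𝒜, Aᶜ ∉ F) → 𝒜.Pairwise (fun A B => (A ∩ B)ᶜ ∈ F) → 𝒜.Countable

/-- A statistical measure: finitely additive, nonnegative, total mass one, zero on points. -/
def StatMeasure (μ : Set ℕ → ℝ) : Prop :=
  (∀ A, 0 ≤ μ A) ∧ (∀ A B, Disjoint A B → μ (A ∪ B) = μ A + μ B) ∧ μ Set.univ = 1 ∧
    ∀ k, μ {k} = 0

/-- `F` is the filter of sets of full measure for some statistical measure. -/
def Generated (F : Filter ℕ) : Prop :=
  ∃ μ : Set ℕ → ℝ, StatMeasure μ ∧ ∀ A, A ∈ F ↔ μ A = 1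

theorem result : ∃ F : Filter ℕ, Free F ∧ Poor F ∧ ¬ Generated F := by
  obtain ⟨F, h1, h2, h3, h4⟩ := Pool.Agent.H27.Filt.exists_poor
  refine ⟨F, ⟨Filter.empty_notMem F, fun A hA => h2 hA⟩, h3, ?_⟩
  rintro ⟨μ, ⟨a, b, c, -⟩, h⟩
  exact h4 μ a b c h

end Pool.Agent.Results.MP_d359f0_an.PoorNoMeasure
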